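import Pool.Agent.Helper79.TL.Core
import Pool.Agent.Helper67.TL.B1

/-!
# TL-B2: the relations of the Hecke operators (exponent 0) (MP_5c3aa2_al)
-/

set_option autoImplicit false
set_option linter.unusedSectionVars false
set_option linter.unusedSimpArgs false

open Module

namespace Pool.Agent.Helper79.TL.B2

open Pool.Agent.Helper79.TL GPre

section Rep

variable {K : Type} [Field K] {G : Type} [Group G] {D : GPre G} {V : Type} [AddCommGroup V]
  [Module K V] (ρ : Representation K G V) (hD : D.Good)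

/-- the operator on `Vl` given by a type -/
def tyOp : Ty → Module.End K ↥(D.Vl ρ)
  | .H ε k e => ((-1 : K) ^ ε * 16) • (tM ρ hD ^ k * sM ρ hD ^ e)
  | .X ε k l n => ((-1 : K) ^ ε) • (tM ρ hD ^ k * YM ρ hD l * tM ρ hD ^ n)
  | .O => 0

lemma E_ty (h2 : (2 : K) ≠ 0) {g : G} {ty : Ty} (hg : D.Is g ty) (v : ↥(D.Vl ρ)) :
    D.E ρ (ρ g v) = ((tyOp ρ hD ty v : ↥(D.Vl ρ)) : V) := by
  cases ty with
  | H ε k e => rw [B1.E_H ρ hD hg v]; rfl
  | X ε k l n => rw [B1.E_X ρ hD hg v]; rfl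
  | O => rw [B1.E_O ρ hD h2 hg v]; rfl

/-- product of two Hecke operators, with a power of `t` between them -/
lemma Y_t_Y (h2 : (2 : K) ≠ 0) (i j : Fin 3) (n : ℕ) (T : Fin 16 → Ty)
    (hT : ∀ m, D.Is (D.x i * D.t ^ n * D.r m * D.x j) (T m)) :
    YM ρ hD i * tM ρ hD ^ n * YM ρ hD j = ∑ m, tyOp ρ hD (T m) := by
  apply LinearMap.ext
  intro v
  apply Subtype.ext
  rw [Module.End.mul_apply, Module.End.mul_apply, YM_coe, B1.tM_pow_coe, YM_coe, E_apply D ρ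
    (ρ (D.x j) (v : V)), map_sum, map_sum, map_sum, LinearMap.sum_apply,
    AddSubmonoidClass.coe_finsetSum]
  refine Finset.sum_congr rfl fun m _ => ?_
  rw [← E_ty ρ hD h2 (hT m) v, rho_mul, rho_mul, rho_mul]

lemma Y_Y (h2 : (2 : K) ≠ 0) (i j : Fin 3) (T : Fin 16 → Ty)
    (hT : ∀ m, D.Is (D.x i * D.r m * D.x j) (T m)) :
    YM ρ hD i * YM ρ hD j = ∑ m, tyOp ρ hD (T m) := by
  have h := Y_t_Y ρ hD h2 i j 0 T (by simpa using hT)
  rwa [pow_zero, mul_one] at h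

lemma op_H0 : tyOp ρ hD (.H 0 0 0) = 16 := by
  simp only [tyOp, pow_zero, one_mul, mul_one]
  apply LinearMap.ext
  intro v
  rw [LinearMap.smul_apply, Module.End.one_apply, Module.End.ofNat_apply]
  exact ofNat_smul_eq_nsmul K 16 v

lemma op_Hs0 : tyOp ρ hD (.H 0 0 1) = 16 * sM ρ hD := by
  simp only [tyOp, pow_zero, one_mul, pow_one]
  apply LinearMap.ext
  intro v
  rw [LinearMap.smul_apply, Module.End.mul_apply, Module.End.ofNat_apply]
  exact ofNat_smul_eq_nsmul K 16 _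

lemma op_Hs1 : tyOp ρ hD (.H 1 0 1) = -(16 * sM ρ hD) := by
  rw [← op_Hs0]
  simp only [tyOp, pow_zero, one_mul, pow_one, neg_mul]
  apply LinearMap.ext
  intro v
  rw [LinearMap.smul_apply, LinearMap.neg_apply, LinearMap.smul_apply]
  exact neg_smul (16 : K) _

lemma op_X0 (l : Fin 3) : tyOp ρ hD (.X 0 0 l 0) = YM ρ hD l := by
  simp only [tyOp, pow_zero, one_mul, mul_one, one_smul]

lemma op_X1 (l : Fin 3) : tyOp ρ hD (.X 1 0 l 0) = -YM ρ hD l := by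
  simp only [tyOp, pow_zero, one_mul, mul_one, pow_one]
  apply LinearMap.ext
  intro v
  rw [LinearMap.smul_apply, LinearMap.neg_apply]
  exact neg_one_smul K _

lemma op_O : tyOp ρ hD .O = 0 := rfl

/-- TL-B2 -/
theorem hmod_c0 (h2 : (2 : K) ≠ 0) :
    YM ρ hD 0 * YM ρ hD 0 = 16 + 16 * sM ρ hD - 4 * YM ρ hD 1 ∧
    YM ρ hD 1 * YM ρ hD 0 = - (4 * YM ρ hD 0) - 4 * YM ρ hD 1 ∧
    YM ρ hD 1 * YM ρ hD 1 = 16 + 16 * sM ρ hD - 4 * YM ρ hD 0 ∧
    YM ρ hD 2 * YM ρ hD 2 = 16 - 16 * sM ρ hD - 4 * YM ρ hD 2 := by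
  refine ⟨?_, ?_, ?_, ?_⟩
  · rw [Y_Y ρ hD h2 0 0 T000 hD.rel000]
    simp only [Fin.sum_univ_succ, Fin.sum_univ_zero, T000, Matrix.cons_val_zero,
      Matrix.cons_val_succ, op_H0, op_Hs0, op_Hs1, op_X0, op_X1, op_O]
    noncomm_ring
  · rw [Y_Y ρ hD h2 1 0 T100 hD.rel100]
    simp only [Fin.sum_univ_succ, Fin.sum_univ_zero, T100, Matrix.cons_val_zero,
      Matrix.cons_val_succ, op_H0, op_Hs0, op_Hs1, op_X0, op_X1, op_O]
    noncomm_ring
  · rw [Y_Y ρ hD h2 1 1 T101 hD.rel101]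
    simp only [Fin.sum_univ_succ, Fin.sum_univ_zero, T101, Matrix.cons_val_zero,
      Matrix.cons_val_succ, op_H0, op_Hs0, op_Hs1, op_X0, op_X1, op_O]
    noncomm_ring
  · rw [Y_Y ρ hD h2 2 2 T202 hD.rel202]
    simp only [Fin.sum_univ_succ, Fin.sum_univ_zero, T202, Matrix.cons_val_zero,
      Matrix.cons_val_succ, op_H0, op_Hs0, op_Hs1, op_X0, op_X1, op_O]
    noncomm_ring

end Rep

end Pool.Agent.Helper79.TL.B2
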